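import Mathlib
import Pool.Agent.Run7.h609.BT.W2
import Pool.Agent.Run7.h794.MK.All

/-!
# The equality of Hardy and Littlewood for almost all displaced windows

For `k ≥ 1` let `h_m(k)` be the number of the integers in `(m, m + k]` without a prime factor `≤ k`.  Hardy and Littlewood
conjectured that the largest number of primes which occurs in infinitely many windows `(x, x + k]` is `max_m h_m(k)`.

Here the points of the window are displaced by multiples of a number `P` divisible by all primes `≤ k`: the window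
`x + 1, x + 2, …, x + k` is replaced by `x + 1, x + 2 + P D₁, …, x + k + P D_(k-1)` (by translation the first point need not
be displaced).  Such a window looks like an ordinary window for all primes `≤ k`; the numbers `h_m(k)` are the same.
For fixed `k ≥ 3` the following holds for almost all displacements `D` from short families (of scale `N^(1/3) (log N)^C`):

* (`Maximum`)  for `x ≥ k` the displaced window contains at most `max_m h_m(k)` primes, and for at least
  `c₀ N / (log N)^(max_m h_m(k))` of the `x < N` it contains exactly so many: the equality of Hardy and Littlewood;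
* (`Patterns`)  for EVERY set `J` of positions which contains the first one and is not hit by the sieve (for every prime
  `p ≤ k` some residue avoids it), `|J| ≥ 2`, and for ALL boxes `B_j`, `j ∈ J`, of the torus `(ℝ/ℤ)^r`, the number of the
  `n = x + 1 ≤ N` for which the points at the positions `j ∈ J` are primes `ℓ` with `ℓ α ∈ B_j` modulo one is
  `(λ + O(ε)) 𝔖 N / (log N)^|J|`, `λ` the measure of the intersection of the translated boxes, `𝔖 > 0` the singular series.
  Here `α ∈ ℝ^r` is any vector with `‖d (h₁ α₁ + … + h_r α_r)‖ ≥ N^(η - 1)` for `1 ≤ d ≤ N^η` and all integers `|h_j| ≤ M`, not all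
  zero (for `r = 0` there is no condition).

The families: `y_i(j)`, `j ∈ S_i`, are any residues modulo `q_i`, `N^(1/3) (log N)^C ≤ q_i ≤ B N`, all of whose nonzero
Fourier coefficients are `≤ |S_i| / (log N)^V` (for example all residues modulo `q_i`).  The displacements are
`D_i = c_i + κ_i y_i(n_i) + t_i` with the least nonnegative residues, any `0 ≤ c_i ≤ B N`, fixed `κ_i ≥ 1`, and ALL
`0 ≤ t_i ≤ (log N)^W` at once; the number of the exceptional `(n_i)` is at most `∏ |S_i| / (log N)^U`.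
-/

set_option autoImplicit false
set_option maxHeartbeats 4000000

namespace Pool.Agent.Results.MP_cbf366_nt.DisplacedWindows

open Finset

/-- the points of the displaced window of length `K + 1` relative to the first one: `0`, and `i + 1 + P * D i` in the
place of `i + 1`, `0 ≤ i < K` -/
def point {K : ℕ} (P : ℕ) (D : Fin K → ℕ) : Fin (K + 1) → ℕ := Fin.cons 0 fun i => i + 1 + P * D i

/-- the number of the primes in the displaced window which begins with `x + 1` -/
def count {K : ℕ} (P : ℕ) (D : Fin K → ℕ) (x : ℕ) : ℕ := (univ.filter fun j => (x + 1 + point P D j).Prime).card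

open scoped Classical in
/-- `h_m(k)`: the number of the integers in `(m, m + k]` without a prime factor `≤ k` -/
noncomputable def h (m k : ℕ) : ℕ := ((Ioc m (m + k)).filter fun n => ∀ p : ℕ, p.Prime → p ≤ k → ¬ p ∣ n).card

/-- the maximum of the `h_m(k)`, `m ≥ 0` (they are all at most `k`) -/
noncomputable def H (k : ℕ) : ℕ := ⨆ m, h m k

/-- no prime `p ≤ K + 1` divides always one of the positions `x + j`, `j ∈ J` -/
def Free {K : ℕ} (J : Finset (Fin (K + 1))) : Prop := ∀ p : ℕ, p.Prime → p ≤ K + 1 → ∃ x : ℕ, ∀ j ∈ J, ¬ p ∣ x + (j : ℕ)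

/-- the singular series of the displaced positions `J`, truncated at `z` -/
noncomputable def series {K : ℕ} (P : ℕ) (D : Fin K → ℕ) (J : Finset (Fin (K + 1))) (z : ℕ) : ℝ :=
  ∏ p ∈ (Icc 1 z).filter Nat.Prime,
    (1 - (((range p).filter fun x => ∃ j ∈ J, p ∣ x + point P D j).card : ℝ) / p) / (1 - 1 / (p : ℝ)) ^ J.card

/-- the measure of the `x` in `[0, 1)` for which `x + s j` is in `[0, l j)` modulo one, for all `j ∈ J` -/
noncomputable def meas {K : ℕ} (J : Finset (Fin (K + 1))) (s l : Fin (K + 1) → ℝ) : ℝ :=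
  (MeasureTheory.volume {x : ℝ | 0 ≤ x ∧ x < 1 ∧ ∀ j ∈ J, Int.fract (x + s j) < l j}).toReal

/-- the expected number of primes at the displaced positions `J`, each in its box, for all `J` and all boxes -/
def Patterns {r K : ℕ} (ε : ℝ) (N : ℕ) (α : Fin r → ℝ) (P : ℕ) (D : Fin K → ℕ) : Prop :=
  ∀ J : Finset (Fin (K + 1)), 0 ∈ J → 2 ≤ J.card → Free J →
    ∃ S : ℝ, 0 < S ∧ Filter.Tendsto (series P D J) Filter.atTop (nhds S) ∧
      ∀ u v : Fin (K + 1) → Fin r → ℝ, (∀ j i, u j i ≤ v j i) → (∀ j i, v j i ≤ u j i + 1) →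
        |(((Icc 1 N).filter fun n : ℕ => ∀ j ∈ J, (n + point P D j).Prime ∧
            ∀ i, Int.fract (α i * (n + point P D j : ℕ) - u j i) < v j i - u j i).card : ℝ) -
          (∏ i, meas J (fun j => α i * point P D j - u j i) (fun j => v j i - u j i)) * (S * (N / Real.log N ^ J.card))| ≤
            ε * (S * (N / Real.log N ^ J.card))

/-- the equality of Hardy and Littlewood for the displaced window -/
def Maximum {K : ℕ} (c₀ : ℝ) (N : ℕ) (P : ℕ) (D : Fin K → ℕ) : Prop :=
  (∀ x : ℕ, K + 1 ≤ x → count P D x ≤ H (K + 1)) ∧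
  c₀ * (N / Real.log N ^ H (K + 1)) ≤ (((range N).filter fun x => K + 1 ≤ x ∧ count P D x = H (K + 1)).card : ℝ)

/-- `‖d (h₁ α₁ + … + h_r α_r)‖ ≥ N ^ (η - 1)` for all `1 ≤ d ≤ N ^ η` and all integers `|h_j| ≤ M`, not all zero -/
def Independent {r : ℕ} (M : ℕ) (η : ℝ) (N : ℕ) (α : Fin r → ℝ) : Prop :=
  ∀ h : Fin r → ℤ, h ≠ 0 → (∀ j, |h j| ≤ M) → ∀ d : ℕ, 1 ≤ d → (d : ℝ) ≤ (N : ℝ) ^ η → ∀ m : ℤ,
    (N : ℝ) ^ (η - 1) ≤ |(d : ℝ) * (∑ j, (h j : ℝ) * α j) - m|

/-- the Fourier coefficients of the residues `y i`, `i ∈ s`, modulo `q` at the nonzero frequencies are at most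
`δ` times the number of the residues -/
def Flat {ι : Type} (q : ℕ) [NeZero q] (δ : ℝ) (s : Finset ι) (y : ι → ZMod q) : Prop :=
  ∀ h : ZMod q, h ≠ 0 → ‖∑ i ∈ s, (ZMod.stdAddChar (h * y i) : ℂ)‖ ≤ δ * s.card

open scoped Classical in
/-- **the equality of Hardy and Littlewood for almost all displaced windows** -/
theorem result : ∀ K : ℕ, 2 ≤ K → ∃ c₀ : ℝ, 0 < c₀ ∧
    ∀ (r B W U P : ℕ) (κ : Fin K → ℕ), 1 ≤ P → (∀ p : ℕ, p.Prime → p ≤ K + 1 → p ∣ P) → (∀ i, 1 ≤ κ i) →
    ∀ η ε : ℝ, 0 < η → η ≤ 1 → 0 < ε →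
    ∃ M V C N₀ : ℕ, ∀ N : ℕ, N₀ ≤ N → ∀ (q : Fin K → ℕ) [∀ i, NeZero (q i)],
      (∀ i, (N : ℝ) ^ (1 / 3 : ℝ) * Real.log N ^ C ≤ q i) → (∀ i, q i ≤ B * N) →
      ∀ (ι : Fin K → Type) (S : ∀ i, Finset (ι i)) (y : ∀ i, ι i → ZMod (q i)),
      (∀ i, Flat (q i) (1 / Real.log N ^ V) (S i) (y i)) → ∀ c : Fin K → ℕ, (∀ i, c i ≤ B * N) →
      ∀ α : Fin r → ℝ, Independent M η N α →
      (((Fintype.piFinset S).filter fun n => ¬ ∀ t : Fin K → ℕ, (∀ i, (t i : ℝ) ≤ Real.log N ^ W) →
        Maximum c₀ N P (fun i => c i + κ i * (y i (n i)).val + t i) ∧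
        Patterns ε N α P (fun i => c i + κ i * (y i (n i)).val + t i)).card : ℝ) ≤
        (∏ i, ((S i).card : ℝ)) / Real.log N ^ U := by
  intro K hK
  obtain ⟨c₀, hc₀, h⟩ := Pool.Agent.Run7.h609.BT.Win.displaced Pool.Agent.Run7.h794.MK.flt_all K hK
  refine ⟨c₀, hc₀, fun r B W U P κ hP hP2 hκ η ε hη hη1 hε => ?_⟩
  obtain ⟨M, V, C, N₀, h1⟩ := h r B W U P κ hP hP2 hκ η ε hη hη1 hε
  refine ⟨M, V, C, N₀, fun N hN q _ hq1 hq2 ι S y hf c hc α hα => ?_⟩
  refine le_trans ?_ (h1 N hN q hq1 hq2 ι S y hf c hc α hα)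
  have h2 : ((Fintype.piFinset S).filter fun n => ¬ ∀ t : Fin K → ℕ, (∀ i, (t i : ℝ) ≤ Real.log N ^ W) →
        Maximum c₀ N P (fun i => c i + κ i * (y i (n i)).val + t i) ∧
        Patterns ε N α P (fun i => c i + κ i * (y i (n i)).val + t i)) ⊆
      (Fintype.piFinset S).filter (fun n => ¬ ∀ t : Fin K → ℕ, (∀ i, (t i : ℝ) ≤ Real.log N ^ W) →
        Pool.Agent.Run7.h609.BT.Win.Pat ε N α P (fun i => c i + κ i * (y i (n i)).val + t i) ∧
        Pool.Agent.Run7.h609.BT.Win.Many c₀ N P (fun i => c i + κ i * (y i (n i)).val + t i)) := by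
    intro n hn
    rw [mem_filter] at hn ⊢
    refine ⟨hn.1, fun hall => hn.2 fun t ht => ?_⟩
    obtain ⟨h3, h4⟩ := hall t ht
    exact ⟨h4, h3⟩
  exact_mod_cast card_le_card h2

end Pool.Agent.Results.MP_cbf366_nt.DisplacedWindows
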