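import Mathlib
import Pool.Agent.Run7.h794.RW.A

/-!
# Problem `MP_cbf366_nt`: prime counts in random windows

The window `x + 1, …, x + k` is replaced by `x + s_1, …, x + s_m`. For all but a proportion `exp (-(log H) ^ (1 / 51))` of
the `m`-tuples of integers `s_i` in `[0, H]`, `m` up to `(log H) ^ (1 / 51)`, the largest number of primes in the windows with
`m < x ≤ H` is equal to the largest number of points without prime factors `≤ m` in any window, and every such sieved window
is entirely prime for many `x ≤ H`.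
-/

set_option autoImplicit false

namespace Pool.Agent.Results.MP_cbf366_nt.RandomWindows

open Finset
open scoped Classical

/-- the number of primes among `n + s_1, …, n + s_m` -/
noncomputable def primesAt {m : ℕ} (s : Fin m → ℕ) (n : ℕ) : ℕ := (univ.filter fun i => (n + s i).Prime).card

/-- the indices `i` for which no prime `p ≤ m` divides `a + s_i` -/
noncomputable def free {m : ℕ} (s : Fin m → ℕ) (a : ℕ) : Finset (Fin m) :=
  univ.filter fun i => ∀ p : ℕ, p.Prime → p ≤ m → ¬ p ∣ a + s i

/-- the analogue of `rho` at the scale `H`: the largest number of primes in the windows with `m < n ≤ H` -/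
noncomputable def rho {m : ℕ} (s : Fin m → ℕ) (H : ℕ) : ℕ := (Ioc m H).sup (primesAt s)

/-- the analogue of Q1: `rho` is the maximum of the sieve counts, and all the points of each sieved window are simultaneously
prime for at least `Y` of the `n ≤ H` -/
def Agree {m : ℕ} (s : Fin m → ℕ) (H : ℕ) (Y : ℝ) : Prop :=
  IsGreatest {x : ℕ | ∃ a : ℕ, x = (free s a).card} (rho s H) ∧
  ∀ a : ℕ, Y ≤ ((Icc 1 H).filter (fun n : ℕ => ∀ i ∈ free s a, (n + s i).Prime)).card

theorem result : ∃ H₀ : ℕ, ∀ H : ℕ, H₀ ≤ H → ∀ m : ℕ, (m : ℝ) ≤ Real.log H ^ (1 / 51 : ℝ) →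
    (((Fintype.piFinset (fun _ : Fin m => range (H + 1))).filter
      (fun s => ¬ Agree s H (H * Real.exp (-(Real.log H ^ (1 / 24 : ℝ)))))).card : ℝ) ≤
      Real.exp (-(Real.log H ^ (1 / 51 : ℝ))) * (H + 1 : ℝ) ^ m := by
  obtain ⟨H₁, h1⟩ := Pool.Agent.Run7.h794.RW.almost_good
  have hlim : Filter.Tendsto (fun H : ℕ => Real.log (H : ℝ)) Filter.atTop Filter.atTop :=
    Real.tendsto_log_atTop.comp (tendsto_natCast_atTop_atTop (R := ℝ))
  obtain ⟨H₂, h2⟩ := Filter.eventually_atTop.1 (hlim.eventually_ge_atTop 10)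
  refine ⟨max H₁ (max H₂ 1), fun H hH m hm => ?_⟩
  have hH1 : H₁ ≤ H := (le_max_left _ _).trans hH
  have hL : 10 ≤ Real.log (H : ℝ) := h2 H (((le_max_left _ _).trans (le_max_right _ _)).trans hH)
  have hHpos : 0 < H := lt_of_lt_of_le Nat.one_pos (((le_max_right _ _).trans (le_max_right _ _)).trans hH)
  have hH0 : (0 : ℝ) < H := by exact_mod_cast hHpos
  have hmY : (m : ℝ) < H * Real.exp (-(Real.log H ^ (1 / 24 : ℝ))) := by
    have e1 : Real.log (H : ℝ) ^ (1 / 24 : ℝ) ≤ Real.log H / 2 := by
      have e2 : Real.log (H : ℝ) ^ (1 / 24 : ℝ) ≤ Real.log (H : ℝ) ^ (1 / 2 : ℝ) :=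
        Real.rpow_le_rpow_of_exponent_le (by linarith) (by norm_num)
      rw [← Real.sqrt_eq_rpow] at e2
      refine e2.trans ?_
      rw [Real.sqrt_le_iff]
      constructor
      · linarith
      · nlinarith
    have e3 : (m : ℝ) ≤ Real.log (H : ℝ) := by
      refine hm.trans ?_
      calc Real.log (H : ℝ) ^ (1 / 51 : ℝ) ≤ Real.log H ^ (1 : ℝ) :=
            Real.rpow_le_rpow_of_exponent_le (by linarith) (by norm_num)
        _ = Real.log H := Real.rpow_one _
    have e4 : (H : ℝ) = Real.exp (Real.log H / 2) * Real.exp (Real.log H / 2) := by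
      rw [← Real.exp_add]
      rw [add_halves, Real.exp_log hH0]
    calc (m : ℝ) ≤ Real.log (H : ℝ) := e3
      _ < Real.exp (Real.log H / 2) := by
          have := Real.quadratic_le_exp_of_nonneg (show 0 ≤ Real.log (H : ℝ) / 2 by linarith)
          nlinarith
      _ = H * Real.exp (-(Real.log H / 2)) := by
          nth_rw 2 [e4]
          rw [mul_assoc, ← Real.exp_add, add_neg_cancel, Real.exp_zero, mul_one]
      _ ≤ H * Real.exp (-(Real.log H ^ (1 / 24 : ℝ))) := by
          apply mul_le_mul_of_nonneg_left _ hH0.le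
          apply Real.exp_le_exp.2
          linarith
  refine le_trans ?_ (h1 H hH1 m hm)
  have hsub : (Fintype.piFinset (fun _ : Fin m => range (H + 1))).filter
      (fun s => ¬ Agree s H (H * Real.exp (-(Real.log H ^ (1 / 24 : ℝ))))) ⊆
      (Fintype.piFinset (fun _ : Fin m => range (H + 1))).filter
      (fun s => ¬ Pool.Agent.Run7.h794.RW.Good s H (H * Real.exp (-(Real.log H ^ (1 / 24 : ℝ))))) := by
    intro s hs
    rw [mem_filter] at hs ⊢
    refine ⟨hs.1, fun hg => hs.2 ⟨?_, hg⟩⟩
    exact Pool.Agent.Run7.h794.RW.good_max s H _ hmY hg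
  exact_mod_cast card_le_card hsub

end Pool.Agent.Results.MP_cbf366_nt.RandomWindows
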