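import Mathlib
import Pool.Agent.Run7.h129.BU.Trp
import Pool.Agent.Results.MP_cbf366_nt.SieveCounts

/-!
# Primes in the windows which start at `⌊β m ^ κ⌋`

For every real `κ > 0` there is a set `E κ` of real numbers of Hausdorff dimension less than one such that for
ALL real `β > 0` outside of `E κ`:

* for all `k, j, t` the number of the `m ≤ M` for which `x = ⌊β m ^ κ⌋` is congruent to `j` modulo all primes
  `≤ k` and the window `(x, x + k]` contains at least `t` primes is, up to `O(M ^ (1 - c))`, `c > 0`, the measure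
  of the reals `0 < s ≤ M` for which `x = ⌊β s ^ κ⌋` has this property;
* if `κ ≥ 1` and the sieve count `h_j(k)` is at least `49` (`3560`, `exp (4 t + 0.58)`), then at least
  `M ^ (1 - ε)` of the `m ≤ M` have the property with `2` (`3`, `t + 1`) primes, for every `ε > 0` and all large
  `M`.

The first part is an instance of a law for ARBITRARY sets `A` of natural numbers
(`Pool.Agent.Run7.h129.BU.main_U`): in the variable `v = log β` the sum over `N < m ≤ N'` minus the integral of a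
smoothed indicator function of `{z | ⌊e ^ z⌋ ∈ A}` at `v + κ log m` has a mean square which saves a power of `N`,
whatever `A` is. The second part combines it with the starting theorem `SieveCounts`.
-/

set_option autoImplicit false

open Filter MeasureTheory

namespace Pool.Agent.Results.MP_cbf366_nt.WindowsAlongPowers

open Classical in
/-- `h_j(k)`: the number of integers in `(j, j + k]` without a prime factor `≤ k`. -/
noncomputable def sieveCount (j k : ℕ) : ℕ :=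
  ((Finset.Ioc j (j + k)).filter fun n => ∀ p : ℕ, p.Prime → p ≤ k → ¬ p ∣ n).card

/-- `x` is congruent to `j` modulo all primes `≤ k` and `(x, x + k]` contains at least `t` primes. -/
def Rich (k j t x : ℕ) : Prop :=
  (∀ p : ℕ, p.Prime → p ≤ k → x ≡ j [MOD p]) ∧ Nat.primeCounting x + t ≤ Nat.primeCounting (x + k)

/-- The number of the `1 ≤ m ≤ M` for which `x = ⌊β m ^ κ⌋` satisfies `Rich k j t x`. -/
noncomputable def count (β κ : ℝ) (k j t M : ℕ) : ℕ :=
  {m : ℕ | 1 ≤ m ∧ m ≤ M ∧ Rich k j t ⌊β * (m : ℝ) ^ κ⌋₊}.ncard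

/-- The Lebesgue measure of the reals `0 < s ≤ M` for which `x = ⌊β s ^ κ⌋` satisfies `Rich k j t x`. -/
noncomputable def size (β κ : ℝ) (k j t M : ℕ) : ℝ :=
  (volume {s : ℝ | 0 < s ∧ s ≤ M ∧ Rich k j t ⌊β * s ^ κ⌋₊}).toReal

theorem sieve_eq (j k : ℕ) :
    Pool.Agent.Results.MP_cbf366_nt.SieveCounts.sieveCount j k = sieveCount j k := by
  unfold sieveCount Pool.Agent.Results.MP_cbf366_nt.SieveCounts.sieveCount
  congr 1
  ext n
  simp only [Finset.mem_filter]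
  refine and_congr_right fun _ => ?_
  constructor
  · intro h p hp hpk hpn
    exact hp.one_lt.ne' (Nat.dvd_one.1 (h ▸ Nat.dvd_gcd hpn
      (Pool.Agent.Results.MP_cbf366_nt.SieveCounts.dvd_primorial hp hpk)))
  · intro h
    refine Nat.coprime_of_dvd fun p hp hpn hpk => ?_
    unfold primorial at hpk
    obtain ⟨q, hq, hpq⟩ := (Prime.dvd_finsetProd_iff hp.prime _).1 hpk
    rw [Finset.mem_filter, Finset.mem_range] at hq
    rw [Nat.prime_dvd_prime_iff_eq hp hq.2] at hpq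
    exact h p hp (by omega) hpn

theorem base (k j t : ℕ) (hk : t = 1 ∧ 49 ≤ sieveCount j k ∨ t = 2 ∧ 3560 ≤ sieveCount j k ∨
    2 ≤ t ∧ Real.exp (4 * t + 29 / 50) ≤ sieveCount j k) (ε : ℝ) (hε : 0 < ε) :
    ∀ᶠ X : ℝ in atTop, X ^ (1 - ε) ≤ ({x : ℕ | (x : ℝ) ≤ X ∧ Rich k j (t + 1) x}.ncard : ℝ) := by
  have hfin : ∀ X : ℝ, {x : ℕ | (x : ℝ) ≤ X ∧ Rich k j (t + 1) x}.Finite := fun X =>
    (Set.finite_Iic ⌊X⌋₊).subset fun x hx => Nat.le_floor hx.1
  have hk' : t = 1 ∧ 49 ≤ Pool.Agent.Results.MP_cbf366_nt.SieveCounts.sieveCount j k ∨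
      t = 2 ∧ 3560 ≤ Pool.Agent.Results.MP_cbf366_nt.SieveCounts.sieveCount j k ∨
      2 ≤ t ∧ Real.exp (4 * t + 29 / 50) ≤ Pool.Agent.Results.MP_cbf366_nt.SieveCounts.sieveCount j k := by
    rw [sieve_eq]
    exact hk
  filter_upwards [Pool.Agent.Results.MP_cbf366_nt.SieveCounts.result k j t hk' ε hε] with X hX
  refine hX.trans ?_
  rw [Nat.cast_le]
  refine Set.ncard_le_ncard ?_ (hfin X)
  rintro x ⟨h1, h2, h3⟩
  refine ⟨h1, fun p hp hpk =>
    h2.of_dvd (Pool.Agent.Results.MP_cbf366_nt.SieveCounts.dvd_primorial hp hpk), ?_⟩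
  unfold Pool.Agent.Results.MP_cbf366_nt.SieveCounts.primesIn at h3
  omega

/-- There are sets `E κ` of real numbers, of Hausdorff dimension less than one for all `κ > 0`, such that for all
real `β > 0` not in `E κ` and all `k, j, t`: (1) `κ > 0`: the property `Rich k j t` (at least `t` primes in
`(x, x + k]`, `x ≡ j` modulo all primes `≤ k`) holds for the numbers `x = ⌊β m ^ κ⌋`, `m ≤ M`, with the natural
frequency, up to `O(M ^ (1 - c))` where `c > 0` depends on `κ` only; (2) `κ ≥ 1`: if the sieve count `h_j(k)` is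
at least `49` and `t = 1`, or at least `3560` and `t = 2`, or at least `exp (4 t + 0.58)` and `t ≥ 2`, then for
every `ε > 0` and all large `M` at least `M ^ (1 - ε)` of the `m ≤ M` are such that `x = ⌊β m ^ κ⌋` satisfies
`Rich k j (t + 1) x`. -/
theorem result : ∃ E : ℝ → Set ℝ, (∀ κ : ℝ, 0 < κ → dimH (E κ) < 1) ∧
    (∀ κ : ℝ, 0 < κ → ∃ c : ℝ, 0 < c ∧ ∀ β : ℝ, 0 < β → β ∉ E κ → ∀ k j t : ℕ,
      ∃ C : ℝ, ∀ M : ℕ, 1 ≤ M → |(count β κ k j t M : ℝ) - size β κ k j t M| ≤ C * (M : ℝ) ^ (1 - c)) ∧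
    ∀ κ : ℝ, 1 ≤ κ → ∀ β : ℝ, 0 < β → β ∉ E κ → ∀ k j t : ℕ,
      (t = 1 ∧ 49 ≤ sieveCount j k ∨ t = 2 ∧ 3560 ≤ sieveCount j k ∨
        2 ≤ t ∧ Real.exp (4 * t + 29 / 50) ≤ sieveCount j k) →
      ∀ ε : ℝ, 0 < ε → ∀ᶠ M : ℕ in atTop, (M : ℝ) ^ (1 - ε) ≤ (count β κ k j (t + 1) M : ℝ) := by
  have key : ∀ κ : ℝ, ∃ E : Set ℝ, 0 < κ → (dimH E < 1 ∧ ∃ c : ℝ, 0 < c ∧ c ≤ 1 / 10 ∧
      ∀ β : ℝ, 0 < β → β ∉ E → ∀ k j t : ℕ, ∃ C : ℝ, ∀ M : ℕ, 1 ≤ M →
        |(Pool.Agent.Run7.h129.BU.cntA {x | Rich k j t x} β κ M : ℝ) -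
          Pool.Agent.Run7.h129.BU.volA {x | Rich k j t x} β κ M| ≤ C * (M : ℝ) ^ (1 - c)) := by
    intro κ
    by_cases hκ : 0 < κ
    · obtain ⟨c, D, hc, hc1, hD0, hD, h⟩ := Pool.Agent.Run7.h129.BU.main_U hκ
      choose E hE hEβ using fun s : ℕ × ℕ × ℕ => h {x | Rich s.1 s.2.1 s.2.2 x}
      refine ⟨⋃ s, E s, fun _ => ⟨?_, c, hc, hc1, fun β hβ hβE k j t => ?_⟩⟩
      · refine lt_of_le_of_lt (b := ENNReal.ofReal D) ?_ ?_
        · rw [dimH_iUnion]
          exact iSup_le hE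
        · rw [← ENNReal.ofReal_one]
          exact (ENNReal.ofReal_lt_ofReal_iff one_pos).2 hD
      · exact hEβ (k, j, t) β hβ fun hcon => hβE (Set.mem_iUnion.2 ⟨_, hcon⟩)
    · exact ⟨∅, fun h => absurd h hκ⟩
  choose E hE using key
  refine ⟨E, fun κ hκ => (hE κ hκ).1, fun κ hκ => ?_, fun κ hκ β hβ hβE k j t hk ε hε => ?_⟩
  · obtain ⟨c, hc, -, h⟩ := (hE κ hκ).2
    exact ⟨c, hc, h⟩
  · obtain ⟨c, hc, hc1, h4⟩ := (hE κ (by linarith)).2
    exact Pool.Agent.Run7.h129.BU.tr_pow hβ hκ hc hc1 (h4 β hβ hβE k j (t + 1))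
      (Pool.Agent.Run7.h129.BU.drop0 (base k j t hk)) hε

end Pool.Agent.Results.MP_cbf366_nt.WindowsAlongPowers
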