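import Pool.Agent.Run7.h962.LF.Win
import Pool.Agent.Run7.h962.AP.Win

/-!
# Primes in windows `(n, n + k]`: the exact limit of all nonnegative sieve weights

The problem asks whether the largest number `ρ(k)` of primes which occur in windows `(x, x + k]` for arbitrarily large `x` is
`max_m h_m(k)`, the largest number of integers without prime factors `≤ k` in a window of length `k`; it is open whether
`ρ(k)` is at least a fixed proportion of `max_m h_m(k)`, which is of the order `k / log k`.  All that is known about lower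
bounds for `ρ(k)` for large `k` comes from the method of Goldston, Pintz, Yıldırım, Maynard and Tao: one takes a nonnegative
weight `w(n)` of level `Q` (a sum of functions with periods `d ≤ Q`) for which the expected number of primes in
`(n, n + k]` is large; if the primes have the level of distribution `θ`, the weights of Maynard and Tao give
`(θ/2 + o(1)) log k` primes.  We prove that no nonnegative weight of any shape gives more.  The windows may moreover be
restricted to those `n` at which a given integer polynomial `P` has no prime factor `≤ Q` (for example `P = 1`: all windows;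
`P = X`: windows which begin after a prime; `P = X (X + k + 1)`: windows between two primes); the weight then needs to be
nonnegative only for these `n`, and `mean Q P` is the mean over these `n` modulo `Q!`.

(1) The mean of `w(n)` times the number of the integers in `(n, n + k]` without prime factors `≤ Q` is at most
`(e^(-γ)/2 + ε) log k + C(ε)` times the mean of `w`.

(2) Times `∏_{p ≤ Q} (1 - 1/p)^(-1)` it is at most `((1/2 + ε) log k + C(ε)) log Q` times the mean of `w`.  Here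
`∏_{p ≤ Q} (1 - 1/p)^(-1) · mean(w(n) 1[(n + h, Q!) = 1])` is the expected value of the mean of `w(n) Λ(n + h)` (the
integers `n ≡ a mod d` give `1/φ(d)` or `0`; for general `P` the value according to the conjecture of Bateman and Horn).

(3) For every `δ > 0` and all `k ≥ k₀(δ)`: these means are at most `δ max_m h_m(k)` and `δ max_m h_m(k) log Q` times the mean of
`w`.  So for large `k` the method does not give any fixed proportion of the conjectured number of primes, not even if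
the primes have the level of distribution `1` in the strongest form.

(4) The same for the primes themselves, unconditionally: for `0 < θ < 1/2` and weights `w ≥ 0` of level `⌊N^θ⌋` for which
`∑_d (∑_a |c_d(a)|)^2 / φ(d)` is at most a fixed power of `log N` times the square of the mean of `w` over `n < N` (as for
the weights of Maynard and Tao), `∑_{n < N} w(n) (π(n + k) - π(n)) ≤ ((θ/2 + ε) log k + C(ε)) ∑_{n < N} w(n)`; (5) for every
`δ > 0` and `k ≥ k₀(δ)` this sum is at most `δ max_m h_m(k) ∑_{n < N} w(n)`.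

The proof extends the one for shifts (MP_8923e7_nt, `SharpLimitOfNonnegativeWeights`, by helpers 962, 816, 249, 420, 571, 956,
697, 743, 97, 245, 372 and 91, with starting files of helper422) to the integers `n` at which a polynomial has no small prime
factor (`Pool/Agent/Run7/h962/LF/{ARP,Gen,Win}`).  (4) and (5) (`Pool/Agent/Run7/h962/AP`) follow by the theorem of Bombieri and
Vinogradov (`H442R2/KF/Bv` of helper442, on starting files), the prime number theorem and Cauchy's inequality.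
-/

set_option autoImplicit false

open Finset

namespace Pool.Agent.Results.MP_cbf366_nt.WindowsLimitOfWeights

/-- the weight `w(n) = ∑_{d ≤ Q} c_d(n mod d)`, an arbitrary real weight of level `Q` -/
noncomputable def weight (Q : ℕ) (c : ℕ → ℕ → ℝ) (n : ℕ) : ℝ := ∑ d ∈ Icc 1 Q, c d (n % d)

/-- the `n` mod `Q!` for which `P(n)` has no prime factor `≤ Q` -/
def sifted (Q : ℕ) (P : Polynomial ℤ) : Finset ℕ :=
  (range Q.factorial).filter (fun n : ℕ => Int.gcd (P.eval (n : ℤ)) Q.factorial = 1)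

/-- the mean value of `F` over the `n` mod `Q!` for which `P(n)` has no prime factor `≤ Q` -/
noncomputable def mean (Q : ℕ) (P : Polynomial ℤ) (F : ℕ → ℝ) : ℝ :=
  (∑ n ∈ sifted Q P, F n) / ((sifted Q P).card : ℝ)

/-- the number of the integers in the window `(n, n + k]` without prime factors `p ≤ Q`; for `Q = k` this is the number
`h_n(k)` of the problem -/
def free (Q k n : ℕ) : ℕ :=
  ((Ioc n (n + k)).filter (fun m : ℕ => ∀ p ∈ Icc (1 : ℕ) Q, Nat.Prime p → ¬ p ∣ m)).card

/-- the product `∏_{p ≤ Q} (1 - 1/p)^(-1)`, asymptotically equal to `e^γ log Q` -/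
noncomputable def euler (Q : ℕ) : ℝ := (∏ p ∈ (Icc 1 Q).filter Nat.Prime, (1 - 1 / (p : ℝ)))⁻¹

/-- `Admitted Q k g B P c`: the polynomial `P` has degree at most `g`, coefficients of absolute value at most `Q^B` and none
of the zeros `-1, ..., -k`, and the weight with the coefficients `c` is nonnegative at the `n` for which `P(n)` is
prime to `Q!`. -/
def Admitted (Q k g : ℕ) (B : ℝ) (P : Polynomial ℤ) (c : ℕ → ℕ → ℝ) : Prop :=
  P.natDegree ≤ g ∧ (∀ j, |(P.coeff j : ℝ)| ≤ (Q : ℝ) ^ B) ∧ (∀ h ∈ Icc 1 k, P.eval (-(h : ℤ)) ≠ 0) ∧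
    ∀ n : ℕ, Int.gcd (P.eval (n : ℤ)) Q.factorial = 1 → 0 ≤ weight Q c n

/-- `Tame N θ A c`: the weight `w` of level `Q = ⌊N^θ⌋` with the coefficients `c` is nonnegative, and
`∑_{d ≤ Q} (∑_{a < d} |c_d(a)|)^2 / φ(d)` is at most `(log N)^A` times the square of the mean of `w(n)` over `n < N`. -/
def Tame (N : ℕ) (θ : ℝ) (A : ℕ) (c : ℕ → ℕ → ℝ) : Prop :=
  (∀ n, 0 ≤ weight ⌊(N : ℝ) ^ θ⌋₊ c n) ∧
    ∑ d ∈ Icc 1 ⌊(N : ℝ) ^ θ⌋₊, (∑ a ∈ range d, |c d a|) ^ 2 / (Nat.totient d : ℝ) ≤
      Real.log N ^ A * ((∑ n ∈ range N, weight ⌊(N : ℝ) ^ θ⌋₊ c n) / N) ^ 2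

/-- For every `ε > 0` there is `C` such that for all `k ≥ 1`, all `g`, all real `B` and all `Q ≥ Q₀(ε, k, g, B)`, all polynomials
and all weights of level `Q` which are admitted:

(1) the mean of `w(n)` times the number of the integers in `(n, n + k]` without prime factors `≤ Q` is at most
`((e^(-γ)/2 + ε) log k + C)` times the mean of `w`;

(2) times `∏_{p ≤ Q} (1 - 1/p)^(-1)` it is at most `((1/2 + ε) log k + C) log Q` times the mean of `w`.

(3) For every `δ > 0` and all `k ≥ k₀(δ)` there is `m` such that for all `g`, `B`, `Q ≥ Q₀(δ, k, g, B)`, all admitted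
polynomials and weights the two means are at most `δ h_m(k)` and `δ h_m(k) log Q` times the mean of `w`.

(4) For every `ε > 0` there is `C` such that for all `k ≥ 1`, `0 < θ < 1/2`, `A`, `N ≥ N₀(ε, k, θ, A)` and all tame weights `w` of
level `⌊N^θ⌋`: `∑_{n < N} w(n) (π(n + k) - π(n)) ≤ ((θ/2 + ε) log k + C) ∑_{n < N} w(n)`.

(5) For every `δ > 0` and all `k ≥ k₀(δ)` there is `m` such that for all `0 < θ < 1/2`, `A`, `N ≥ N₀(δ, k, θ, A)` and all tame
weights `w` of level `⌊N^θ⌋`: `∑_{n < N} w(n) (π(n + k) - π(n)) ≤ δ h_m(k) ∑_{n < N} w(n)`. -/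
theorem result :
    (∀ ε : ℝ, 0 < ε → ∃ C : ℝ, ∀ (k g : ℕ) (B : ℝ), 1 ≤ k → ∃ Q₀ : ℕ, ∀ Q : ℕ, Q₀ ≤ Q →
      ∀ (P : Polynomial ℤ) (c : ℕ → ℕ → ℝ), Admitted Q k g B P c →
        mean Q P (fun n => weight Q c n * (free Q k n : ℝ)) ≤
          ((Real.exp (-Real.eulerMascheroniConstant) / 2 + ε) * Real.log k + C) * mean Q P (weight Q c) ∧
        euler Q * mean Q P (fun n => weight Q c n * (free Q k n : ℝ)) ≤
          ((1 / 2 + ε) * Real.log k + C) * Real.log Q * mean Q P (weight Q c)) ∧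
    (∀ δ : ℝ, 0 < δ → ∃ k₀ : ℕ, ∀ k : ℕ, k₀ ≤ k → ∃ m : ℕ, ∀ (g : ℕ) (B : ℝ), ∃ Q₀ : ℕ, ∀ Q : ℕ, Q₀ ≤ Q →
      ∀ (P : Polynomial ℤ) (c : ℕ → ℕ → ℝ), Admitted Q k g B P c →
        mean Q P (fun n => weight Q c n * (free Q k n : ℝ)) ≤ δ * free k k m * mean Q P (weight Q c) ∧
        euler Q * mean Q P (fun n => weight Q c n * (free Q k n : ℝ)) ≤
          δ * free k k m * Real.log Q * mean Q P (weight Q c)) ∧
    (∀ ε : ℝ, 0 < ε → ∃ C : ℝ, ∀ (k : ℕ) (θ : ℝ) (A : ℕ), 1 ≤ k → 0 < θ → θ < 1 / 2 →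
      ∃ N₀ : ℕ, ∀ N : ℕ, N₀ ≤ N → ∀ c : ℕ → ℕ → ℝ, Tame N θ A c →
        ∑ n ∈ range N, weight ⌊(N : ℝ) ^ θ⌋₊ c n * ((Nat.primeCounting (n + k) : ℝ) - Nat.primeCounting n) ≤
          ((θ / 2 + ε) * Real.log k + C) * ∑ n ∈ range N, weight ⌊(N : ℝ) ^ θ⌋₊ c n) ∧
    (∀ δ : ℝ, 0 < δ → ∃ k₀ : ℕ, ∀ k : ℕ, k₀ ≤ k → ∃ m : ℕ, ∀ (θ : ℝ) (A : ℕ), 0 < θ → θ < 1 / 2 →
      ∃ N₀ : ℕ, ∀ N : ℕ, N₀ ≤ N → ∀ c : ℕ → ℕ → ℝ, Tame N θ A c →
        ∑ n ∈ range N, weight ⌊(N : ℝ) ^ θ⌋₊ c n * ((Nat.primeCounting (n + k) : ℝ) - Nat.primeCounting n) ≤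
          δ * free k k m * ∑ n ∈ range N, weight ⌊(N : ℝ) ^ θ⌋₊ c n) := by
  have key := Pool.Agent.Run7.h962.LF.Win.win
  have keyP := Pool.Agent.Run7.h962.AP.win
  refine ⟨?_, ?_, ?_, ?_⟩
  · intro ε hε
    obtain ⟨C, _, h1⟩ := key ε hε
    refine ⟨C, fun k g B hk => ?_⟩
    obtain ⟨Q₀, h2⟩ := h1 k g B hk
    exact ⟨Q₀, fun Q hQ P c h => h2 Q hQ P h.1 h.2.1 h.2.2.1 c h.2.2.2⟩
  · intro δ hδ
    obtain ⟨C, hC, h1⟩ := key 1 one_pos
    obtain ⟨k₀, hk₀, h2⟩ := Pool.Agent.Run7.h962.LF.Win.grow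
      (max (Real.exp (-Real.eulerMascheroniConstant) / 2 + 1) (1 / 2 + 1)) C δ hδ
    refine ⟨k₀, fun k hk => ?_⟩
    obtain ⟨m, hm⟩ := h2 k hk
    refine ⟨m, fun g B => ?_⟩
    obtain ⟨Q₀, h3⟩ := h1 k g B (by omega)
    refine ⟨Q₀, fun Q hQ P c h => ?_⟩
    have h4 := h3 Q hQ P h.1 h.2.1 h.2.2.1 c h.2.2.2
    have hM : 0 ≤ mean Q P (weight Q c) := by
      unfold mean
      apply div_nonneg _ (Nat.cast_nonneg _)
      apply Finset.sum_nonneg
      intro n hn
      exact h.2.2.2 n (mem_filter.1 hn).2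
    have hl : 0 ≤ Real.log Q := Real.log_natCast_nonneg Q
    have hk1 : 0 ≤ Real.log k := Real.log_natCast_nonneg k
    refine ⟨le_trans h4.1 ?_, le_trans h4.2 ?_⟩
    · apply mul_le_mul_of_nonneg_right (le_trans ?_ hm) hM
      apply add_le_add_left
      exact mul_le_mul_of_nonneg_right (le_max_left _ _) hk1
    · rw [mul_assoc, mul_assoc]
      apply mul_le_mul_of_nonneg_right (le_trans ?_ hm) (mul_nonneg hl hM)
      apply add_le_add_left
      exact mul_le_mul_of_nonneg_right (le_max_right _ _) hk1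
  · intro ε hε
    obtain ⟨C, _, h1⟩ := keyP ε hε
    refine ⟨C, fun k θ A hk hθ0 hθ => ?_⟩
    obtain ⟨N₀, h2⟩ := h1 k θ A hk hθ0 hθ
    exact ⟨N₀, fun N hN c h => h2 N hN c h.1 h.2⟩
  · intro δ hδ
    obtain ⟨C, _, h1⟩ := keyP 1 one_pos
    obtain ⟨k₀, hk₀, h2⟩ := Pool.Agent.Run7.h962.LF.Win.grow 2 C δ hδ
    refine ⟨k₀, fun k hk => ?_⟩
    obtain ⟨m, hm⟩ := h2 k hk
    refine ⟨m, fun θ A hθ0 hθ => ?_⟩
    obtain ⟨N₀, h4⟩ := h1 k θ A (by omega) hθ0 hθ
    refine ⟨N₀, fun N hN c h => (h4 N hN c h.1 h.2).trans ?_⟩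
    apply mul_le_mul_of_nonneg_right _ (Finset.sum_nonneg fun n _ => h.1 n)
    have hl : 0 ≤ Real.log k := Real.log_natCast_nonneg k
    have h5 : (θ / 2 + 1) * Real.log k ≤ 2 * Real.log k := mul_le_mul_of_nonneg_right (by linarith) hl
    have h6 : 2 * Real.log k + C ≤ δ * (free k k m : ℝ) := hm
    linarith

end Pool.Agent.Results.MP_cbf366_nt.WindowsLimitOfWeights
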